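import Pool.Agent.W2helper81.IW.Defs

/-!
# Project IW (MP_519cc8_nt), piece STEP
-/

set_option autoImplicit false

namespace Pool.Agent.W2helper81.IW

open IntermediateField Module Pool.Agent.Q60.MU Pool.Agent.W5h77.MB
open scoped Pointwise

namespace StepH85

/-- counting by fibres -/
theorem atMost_of_fibres {X Y X' : Type} [Finite Y] {S : Set X} {S' : Set X'} (Φ : S → Y) (n : ℕ)
    (hS' : AtMost S' n)
    (h : ∀ x₀ : S, ∃ F : X → X', Function.Injective F ∧ ∀ y : S, Φ y = Φ x₀ → F y ∈ S') :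
    AtMost S (Nat.card Y * n) := by
  classical
  obtain ⟨hf, hn⟩ := hS'
  haveI : Finite S' := hf.to_subtype
  choose F hF1 hF2 using h
  have key : ∀ y : Y, (∃ x : S, Φ x = y) → ∃ x : S, Φ x = y := fun _ h => h
  choose rep hrep using key
  let Ψ : S → Y × S' := fun x =>
    (Φ x, ⟨F (rep (Φ x) ⟨x, rfl⟩) x, hF2 _ x (hrep (Φ x) ⟨x, rfl⟩).symm⟩)
  have hΨ : Function.Injective Ψ := by
    intro x x' hxx
    have h1 : Φ x = Φ x' := congrArg Prod.fst hxx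
    have h2 : F (rep (Φ x) ⟨x, rfl⟩) x = F (rep (Φ x') ⟨x', rfl⟩) x' :=
      congrArg (fun z : Y × S' => (z.2 : X')) hxx
    have h3 : rep (Φ x) ⟨x, rfl⟩ = rep (Φ x') ⟨x', rfl⟩ := by
      simp only [h1]
    rw [h3] at h2
    exact Subtype.ext (hF1 _ h2)
  haveI : Finite S := Finite.of_injective Ψ hΨ
  refine ⟨S.toFinite, ?_⟩
  rw [← Nat.card_coe_set_eq]
  refine (Nat.card_le_card_of_injective Ψ hΨ).trans ?_
  rw [Nat.card_prod, Nat.card_coe_set_eq]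
  exact Nat.mul_le_mul_left _ hn

variable {p : ℕ} {K R : IntermediateField ℚ Qb} {W : Type} [AddCommGroup W] [Module (ZMod p) W]
  {ρ : Representation (ZMod p) K.fixingSubgroup W}

theorem norm_fix (R : IntermediateField ℚ Qb) [h : IsGalois ℚ R] : R.fixingSubgroup.Normal := by
  refine (InfiniteGalois.normal_iff_isGalois R).2 ?_
  convert h
  exact Subsingleton.elim _ _

theorem mem_galOf (g : K.fixingSubgroup) :
    g ∈ GalOf K (K ⊔ R) ↔ (g : Gal(Qb/ℚ)) ∈ R.fixingSubgroup := by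
  rw [Subgroup.mem_subgroupOf, fixingSubgroup_sup, Subgroup.mem_inf]
  exact ⟨fun h => h.2, fun h => ⟨g.2, h⟩⟩

theorem conj_mem' [IsGalois ℚ R] (d : K.fixingSubgroup) {h : K.fixingSubgroup}
    (hh : h ∈ GalOf K (K ⊔ R)) : d⁻¹ * h * d ∈ GalOf K (K ⊔ R) := by
  rw [mem_galOf] at hh ⊢
  have := (norm_fix R).conj_mem _ hh (d : Gal(Qb/ℚ))⁻¹
  rw [inv_inv] at this
  exact this

/-- conjugation -/
noncomputable def cj [IsGalois ℚ R] (d : K.fixingSubgroup) (x : GalOf K (K ⊔ R)) : GalOf K (K ⊔ R) :=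
  ⟨d⁻¹ * x * d, conj_mem' d x.2⟩

theorem cj_mul [IsGalois ℚ R] (d : K.fixingSubgroup) (x y : GalOf K (K ⊔ R)) :
    cj d (x * y) = cj d x * cj d y := by
  apply Subtype.ext
  show d⁻¹ * ((x : K.fixingSubgroup) * y) * d = (d⁻¹ * x * d) * (d⁻¹ * y * d)
  group

theorem cj_cj [IsGalois ℚ R] (d : K.fixingSubgroup) (x : GalOf K (K ⊔ R)) :
    cj d (cj d⁻¹ x) = x := by
  apply Subtype.ext
  show d⁻¹ * (d⁻¹⁻¹ * (x : K.fixingSubgroup) * d⁻¹) * d = x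
  group

theorem rho_mul (g h : K.fixingSubgroup) (x : W) : ρ (g * h) x = ρ g (ρ h x) := by
  rw [map_mul, Module.End.mul_apply]

/-- the twisted cocycle -/
noncomputable def tw (ρ : Representation (ZMod p) K.fixingSubgroup W) [IsGalois ℚ R]
    (c : GalOf K (K ⊔ R) → W) (d : K.fixingSubgroup) (x : GalOf K (K ⊔ R)) : W :=
  ρ d (c (cj d x))

theorem tw_mul [IsGalois ℚ R] {c : GalOf K (K ⊔ R) → W}
    (hc : ∀ g h, c (g * h) = c g + ρ g (c h)) (d : K.fixingSubgroup) (x y : GalOf K (K ⊔ R)) :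
    tw ρ c d (x * y) = tw ρ c d x + ρ x (tw ρ c d y) := by
  unfold tw
  rw [cj_mul, hc, map_add, ← rho_mul, ← rho_mul]
  congr 3
  show d * (d⁻¹ * (x : K.fixingSubgroup) * d) = x * d
  group

theorem tw_inertia [IsGalois ℚ R] {U' : Submodule (ZMod p) W} (hU' : IsSub ρ U')
    {c : GalOf K (K ⊔ R) → W}
    (hc : ∀ A : ValuationSubring Qb, ∃ w ∈ U', ∀ g : GalOf K (K ⊔ R),
      ((g : K.fixingSubgroup) : Gal(Qb/ℚ)) ∈ inertia A → c g = ρ g w - w)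
    (d : K.fixingSubgroup) (A : ValuationSubring Qb) : ∃ w ∈ U', ∀ g : GalOf K (K ⊔ R),
      ((g : K.fixingSubgroup) : Gal(Qb/ℚ)) ∈ inertia A → tw ρ c d g = ρ g w - w := by
  obtain ⟨w, hw, h⟩ := hc ((d : Gal(Qb/ℚ))⁻¹ • A)
  refine ⟨ρ d w, hU' _ _ hw, fun g hg => ?_⟩
  have h1 : (((cj d g : GalOf K (K ⊔ R)) : K.fixingSubgroup) : Gal(Qb/ℚ)) ∈
      inertia ((d : Gal(Qb/ℚ))⁻¹ • A) := by
    have h2 := inertia_conj (d : Gal(Qb/ℚ))⁻¹ A _ hg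
    rw [inv_inv] at h2
    exact h2
  unfold tw
  rw [h _ h1, map_sub, ← rho_mul, ← rho_mul]
  congr 3
  show d * (d⁻¹ * (g : K.fixingSubgroup) * d) = g * d
  group

theorem tw_cont [IsGalois ℚ R] {c : GalOf K (K ⊔ R) → W}
    (hc : ∃ V : Subgroup Gal(Qb/ℚ), IsOpen (V : Set Gal(Qb/ℚ)) ∧
      ∀ g : GalOf K (K ⊔ R), ((g : K.fixingSubgroup) : Gal(Qb/ℚ)) ∈ V → c g = 0)
    (d : K.fixingSubgroup) : ∃ V : Subgroup Gal(Qb/ℚ), IsOpen (V : Set Gal(Qb/ℚ)) ∧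
      ∀ g : GalOf K (K ⊔ R), ((g : K.fixingSubgroup) : Gal(Qb/ℚ)) ∈ V → tw ρ c d g = 0 := by
  obtain ⟨V, hV, h⟩ := hc
  refine ⟨V.comap (MulAut.conj (d : Gal(Qb/ℚ))⁻¹).toMonoidHom, ?_, fun g hg => ?_⟩
  · have hcont : Continuous fun g : Gal(Qb/ℚ) => (d : Gal(Qb/ℚ))⁻¹ * g * (d : Gal(Qb/ℚ))⁻¹⁻¹ :=
      (continuous_const_mul _).mul_const _
    exact hV.preimage hcont
  · have h1 : (((cj d g : GalOf K (K ⊔ R)) : K.fixingSubgroup) : Gal(Qb/ℚ)) ∈ V := by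
      have h2 : (d : Gal(Qb/ℚ))⁻¹ * ((g : K.fixingSubgroup) : Gal(Qb/ℚ)) * (d : Gal(Qb/ℚ))⁻¹⁻¹ ∈ V := hg
      rw [inv_inv] at h2
      exact h2
    unfold tw
    rw [h _ h1, map_zero]

/-- the stabiliser of a form -/
def fst (ρ : Representation (ZMod p) K.fixingSubgroup W) (U' : Submodule (ZMod p) W)
    (f : W →ₗ[ZMod p] ZMod p) (hU : IsSub ρ U') : Subgroup Gal(Qb/ℚ) where
  carrier := {g | ∃ h : g ∈ K.fixingSubgroup, ∀ x ∈ U', f (ρ ⟨g, h⟩ x) = f x}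
  mul_mem' := by
    rintro a b ⟨ha, ha'⟩ ⟨hb, hb'⟩
    refine ⟨mul_mem ha hb, fun x hx => ?_⟩
    have h1 : (⟨a * b, mul_mem ha hb⟩ : K.fixingSubgroup) = ⟨a, ha⟩ * ⟨b, hb⟩ := rfl
    rw [h1, rho_mul, ha' _ (hU _ _ hx), hb' _ hx]
  one_mem' := ⟨one_mem _, fun x _ => by
    have h1 : (⟨1, one_mem _⟩ : K.fixingSubgroup) = 1 := rfl
    rw [h1, map_one, Module.End.one_apply]⟩
  inv_mem' := by
    rintro a ⟨ha, ha'⟩
    refine ⟨inv_mem ha, fun x hx => ?_⟩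
    have h1 : (⟨a⁻¹, inv_mem ha⟩ : K.fixingSubgroup) = (⟨a, ha⟩ : K.fixingSubgroup)⁻¹ := rfl
    rw [h1]
    have h2 := ha' (ρ (⟨a, ha⟩ : K.fixingSubgroup)⁻¹ x) (hU _ _ hx)
    rw [← rho_mul, mul_inv_cancel, map_one, Module.End.one_apply] at h2
    exact h2.symm

theorem formField_fix {U' : Submodule (ZMod p) W} {f : W →ₗ[ZMod p] ZMod p} (hU : IsSub ρ U')
    {N : IntermediateField ℚ Qb} [FiniteDimensional ℚ N] (hKN : K ≤ N) (hN : TrivialOver ρ N) :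
    (formField ρ U' f).fixingSubgroup = fst ρ U' f hU := by
  have h1 : N.fixingSubgroup ≤ fst ρ U' f hU := fun g hg =>
    ⟨fixingSubgroup_antitone hKN hg, fun x _ => by rw [hN ⟨g, _⟩ hg x]⟩
  have h2 : IsOpen ((fst ρ U' f hU : Subgroup Gal(Qb/ℚ)) : Set Gal(Qb/ℚ)) :=
    Subgroup.isOpen_mono h1 N.fixingSubgroup_isOpen
  have h3 : Subgroup.closure {g : Gal(Qb/ℚ) | ∃ h : g ∈ K.fixingSubgroup,
      ∀ x ∈ U', f (ρ ⟨g, h⟩ x) = f x} = fst ρ U' f hU := Subgroup.closure_eq (fst ρ U' f hU)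
  unfold formField
  rw [h3, fix_fixed h2]

/-- the inclusion -/
def inc {M : IntermediateField ℚ Qb} (hMK : M.fixingSubgroup ≤ K.fixingSubgroup)
    (hMR : M.fixingSubgroup ≤ R.fixingSubgroup) (g : M.fixingSubgroup) : GalOf K (K ⊔ R) :=
  ⟨⟨g, hMK g.2⟩, (mem_galOf _).2 (hMR g.2)⟩

theorem chi_mem [IsGalois ℚ R] {M : IntermediateField ℚ Qb} {U' : Submodule (ZMod p) W}
    {f : W →ₗ[ZMod p] ZMod p} (hU' : IsSub ρ U')
    (hMK : M.fixingSubgroup ≤ K.fixingSubgroup) (hMR : M.fixingSubgroup ≤ R.fixingSubgroup)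
    (hMf : ∀ g : M.fixingSubgroup, ∀ x ∈ U', f (ρ ⟨g, hMK g.2⟩ x) = f x)
    {c : GalOf K (K ⊔ R) → W} (hc : c ∈ CocOn ρ U' (K ⊔ R)) (d : K.fixingSubgroup) :
    (fun g : M.fixingSubgroup => f (tw ρ c d (inc hMK hMR g))) ∈ Hom p M := by
  obtain ⟨h1, h2, h3, h4⟩ := hc
  have hU : ∀ x, tw ρ c d x ∈ U' := fun x => hU' _ _ (h1 _)
  refine ⟨fun g h => ?_, ?_, fun A g hg => ?_⟩
  · show f (tw ρ c d (inc hMK hMR (g * h))) = f (tw ρ c d (inc hMK hMR g)) +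
      f (tw ρ c d (inc hMK hMR h))
    have e1 : inc (R := R) hMK hMR (g * h) = inc hMK hMR g * inc hMK hMR h := rfl
    rw [e1, tw_mul h2, map_add]
    congr 1
    exact hMf g _ (hU _)
  · obtain ⟨V, hV, h⟩ := tw_cont (ρ := ρ) h3 d
    refine ⟨V, hV, fun g hg => ?_⟩
    show f (tw ρ c d (inc hMK hMR g)) = 0
    rw [h (inc hMK hMR g) hg, map_zero]
  · obtain ⟨w, hw, h⟩ := tw_inertia hU' h4 d A
    show f (tw ρ c d (inc hMK hMR g)) = 0
    rw [h (inc hMK hMR g) hg, map_sub, sub_eq_zero]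
    exact hMf g w hw

/-- the difference of two cocycles with the same data -/
theorem diff_mem [IsGalois ℚ R] {N : IntermediateField ℚ Qb} [IsGalois ℚ N]
    {U U' : Submodule (ZMod p) W} {f : W →ₗ[ZMod p] ZMod p} (hN : TrivialOver ρ N)
    (hstep : IsStep ρ U U') (hfU : ∀ x ∈ U, f x = 0) (hfU' : ∃ x ∈ U', f x ≠ 0)
    {T : Finset (ValuationSubring Qb)} (hT : RamSet K N R T)
    {c₁ c₂ : GalOf K (K ⊔ R) → W} (hc₁ : c₁ ∈ CocOn ρ U' (K ⊔ R)) (hc₂ : c₂ ∈ CocOn ρ U' (K ⊔ R))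
    (e1 : ∀ i : K.fixingSubgroup ⧸ (N.fixingSubgroup.subgroupOf K.fixingSubgroup),
      ∀ g : GalOf K (K ⊔ R), ((g : K.fixingSubgroup) : Gal(Qb/ℚ)) ∈ N.fixingSubgroup →
        f (tw ρ c₁ (Quotient.out i) g) = f (tw ρ c₂ (Quotient.out i) g))
    (e2 : ∀ j : GalOf K (K ⊔ R) ⧸ ((N.fixingSubgroup.subgroupOf K.fixingSubgroup).subgroupOf
      (GalOf K (K ⊔ R))), c₁ (Quotient.out j) = c₂ (Quotient.out j))
    (e3 : ∀ B ∈ T, ∀ g : GalOf K (K ⊔ R), ((g : K.fixingSubgroup) : Gal(Qb/ℚ)) ∈ inertia B →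
      c₁ g = c₂ g) :
    c₁ - c₂ ∈ CocOn ρ U (K ⊔ R) := by
  obtain ⟨a1, a2, ⟨V₁, hV₁, a3⟩, a4⟩ := hc₁
  obtain ⟨b1, b2, ⟨V₂, hV₂, b3⟩, b4⟩ := hc₂
  obtain ⟨hU, hU', hlt, hsimple⟩ := hstep
  have hcoc : ∀ g h, (c₁ - c₂) (g * h) = (c₁ - c₂) g + ρ g ((c₁ - c₂) h) := by
    intro g h
    simp only [Pi.sub_apply, a2, b2, map_sub]
    abel
  have hval' : ∀ g, (c₁ - c₂) g ∈ U' := fun g => U'.sub_mem (a1 g) (b1 g)
  -- the submodule where all the conjugates of `f` vanish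
  set S : Submodule (ZMod p) W := U' ⊓ ⨅ d : K.fixingSubgroup, LinearMap.ker (f ∘ₗ (ρ d)) with hS
  have hSmem : ∀ x, x ∈ S ↔ x ∈ U' ∧ ∀ d : K.fixingSubgroup, f (ρ d x) = 0 := by
    intro x
    rw [hS, Submodule.mem_inf, Submodule.mem_iInf]
    simp only [LinearMap.mem_ker, LinearMap.comp_apply]
  have hS1 : IsSub ρ S := by
    intro g x hx
    rw [hSmem] at hx ⊢
    refine ⟨hU' _ _ hx.1, fun d => ?_⟩
    rw [← rho_mul]
    exact hx.2 _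
  have hS2 : U ≤ S := by
    intro x hx
    rw [hSmem]
    exact ⟨hlt.le hx, fun d => hfU _ (hU _ _ hx)⟩
  have hS3 : S ≤ U' := fun x hx => ((hSmem x).1 hx).1
  have hSU : S = U := by
    rcases hsimple S hS1 hS2 hS3 with h | h
    · exact h
    · exfalso
      obtain ⟨x, hx, hx'⟩ := hfU'
      rw [← h, hSmem] at hx
      have := hx.2 1
      rw [map_one, Module.End.one_apply] at this
      exact hx' this
  have hval1 : ∀ g : GalOf K (K ⊔ R), ((g : K.fixingSubgroup) : Gal(Qb/ℚ)) ∈ N.fixingSubgroup →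
      (c₁ - c₂) g ∈ U := by
    intro g hg
    rw [← hSU, hSmem]
    refine ⟨hval' g, fun d => ?_⟩
    set i : K.fixingSubgroup ⧸ (N.fixingSubgroup.subgroupOf K.fixingSubgroup) :=
      QuotientGroup.mk d with hi
    set d₀ : K.fixingSubgroup := Quotient.out i with hd₀
    have hd : d₀⁻¹ * d ∈ N.fixingSubgroup.subgroupOf K.fixingSubgroup := by
      rw [← QuotientGroup.eq]
      exact QuotientGroup.out_eq' i
    have hd' : ρ d ((c₁ - c₂) g) = ρ d₀ ((c₁ - c₂) g) := by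
      have h1 : d = d₀ * (d₀⁻¹ * d) := by group
      rw [h1, rho_mul, hN (d₀⁻¹ * d) (Subgroup.mem_subgroupOf.1 hd)]
    rw [hd']
    have hg' : (((cj d₀⁻¹ g : GalOf K (K ⊔ R)) : K.fixingSubgroup) : Gal(Qb/ℚ)) ∈
        N.fixingSubgroup := by
      have := (norm_fix N).conj_mem _ hg (d₀ : Gal(Qb/ℚ))
      have h2 : (((cj d₀⁻¹ g : GalOf K (K ⊔ R)) : K.fixingSubgroup) : Gal(Qb/ℚ)) =
          (d₀ : Gal(Qb/ℚ)) * ((g : K.fixingSubgroup) : Gal(Qb/ℚ)) * (d₀ : Gal(Qb/ℚ))⁻¹ := by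
        show ((d₀⁻¹⁻¹ * (g : K.fixingSubgroup) * d₀⁻¹ : K.fixingSubgroup) : Gal(Qb/ℚ)) = _
        rw [inv_inv]
        rfl
      rw [h2]
      exact this
    have h3 := e1 i (cj d₀⁻¹ g) hg'
    unfold tw at h3
    rw [← hd₀, cj_cj] at h3
    rw [Pi.sub_apply, map_sub, map_sub, h3, sub_self]
  have hval : ∀ g : GalOf K (K ⊔ R), (c₁ - c₂) g ∈ U := by
    intro g
    set j : GalOf K (K ⊔ R) ⧸ ((N.fixingSubgroup.subgroupOf K.fixingSubgroup).subgroupOf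
      (GalOf K (K ⊔ R))) := QuotientGroup.mk g with hj
    set g₀ : GalOf K (K ⊔ R) := Quotient.out j with hg₀
    have hd : g₀⁻¹ * g ∈ (N.fixingSubgroup.subgroupOf K.fixingSubgroup).subgroupOf
        (GalOf K (K ⊔ R)) := by
      rw [← QuotientGroup.eq]
      exact QuotientGroup.out_eq' j
    have h1 : g = g₀ * (g₀⁻¹ * g) := by group
    have h2 : (c₁ - c₂) g₀ = 0 := by
      rw [Pi.sub_apply, e2 j, sub_self]
    rw [h1, hcoc, h2, zero_add]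
    refine hU _ _ (hval1 _ ?_)
    exact Subgroup.mem_subgroupOf.1 (Subgroup.mem_subgroupOf.1 hd)
  refine ⟨hval, hcoc, ⟨V₁ ⊓ V₂, hV₁.inter hV₂, fun g hg => ?_⟩, fun A => ?_⟩
  · rw [Pi.sub_apply, a3 g hg.1, b3 g hg.2, sub_self]
  · rcases hT A with h | ⟨B, hB, σ, hσ, hA⟩
    · refine ⟨0, U.zero_mem, fun g hg => ?_⟩
      have hgN : ((g : K.fixingSubgroup) : Gal(Qb/ℚ)) ∈ N.fixingSubgroup :=
        h ⟨⟨hg, (g : K.fixingSubgroup).2⟩, (mem_galOf _).1 g.2⟩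
      obtain ⟨w₁, -, hw₁⟩ := a4 A
      obtain ⟨w₂, -, hw₂⟩ := b4 A
      rw [Pi.sub_apply, hw₁ g hg, hw₂ g hg, hN _ hgN, hN _ hgN, sub_self, sub_self, sub_self,
        map_zero, sub_zero]
    · set s : GalOf K (K ⊔ R) := ⟨⟨σ, hσ.1⟩, (mem_galOf _).2 hσ.2⟩ with hs
      refine ⟨-(c₁ - c₂) s, U.neg_mem (hval s), fun g hg => ?_⟩
      have hg' : (((s⁻¹ * g * s : GalOf K (K ⊔ R)) : K.fixingSubgroup) : Gal(Qb/ℚ)) ∈ inertia B := by
        have h2 := inertia_conj σ⁻¹ A _ hg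
        rw [inv_inv, hA, inv_smul_smul] at h2
        exact h2
      have h0 : (c₁ - c₂) (s⁻¹ * g * s) = 0 := by
        rw [Pi.sub_apply, e3 B hB _ hg', sub_self]
      have h1 : g * s = s * (s⁻¹ * g * s) := by group
      have h2 : (c₁ - c₂) (g * s) = (c₁ - c₂) g + ρ g ((c₁ - c₂) s) := hcoc g s
      rw [h1, hcoc, h0, map_zero, add_zero] at h2
      show (c₁ - c₂) g = ρ g (-((c₁ - c₂) s)) - (-((c₁ - c₂) s))
      rw [map_neg, eq_sub_of_add_eq h2.symm]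
      abel

end StepH85

open StepH85 in
theorem STEP_ok : P_STEP := by
  intro p hp K N R hKf hNf hRf hKN hNG hRG W _ _ _ ρ hN U U' f hstep hfU hfU' T hT C₀ C₁ hC₀ hC₁
  classical
  have hU' : IsSub ρ U' := hstep.2.1
  set M : IntermediateField ℚ Qb := formField ρ U' f ⊔ R with hM
  have hMmem : ∀ g, g ∈ M.fixingSubgroup ↔ g ∈ fst ρ U' f hU' ∧ g ∈ R.fixingSubgroup := by
    intro g
    rw [hM, fixingSubgroup_sup, Subgroup.mem_inf, formField_fix hU' hKN hN]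
  have hMK : M.fixingSubgroup ≤ K.fixingSubgroup := fun g hg => ((hMmem g).1 hg).1.fst
  have hMR : M.fixingSubgroup ≤ R.fixingSubgroup := fun g hg => ((hMmem g).1 hg).2
  have hMf : ∀ g : M.fixingSubgroup, ∀ x ∈ U', f (ρ ⟨g, hMK g.2⟩ x) = f x :=
    fun g => ((hMmem g).1 g.2).1.snd
  set NN : Subgroup K.fixingSubgroup := N.fixingSubgroup.subgroupOf K.fixingSubgroup with hNN
  set NH : Subgroup (GalOf K (K ⊔ R)) := NN.subgroupOf (GalOf K (K ⊔ R)) with hNH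
  have hidx : N.fixingSubgroup.index = finrank ℚ N := by
    rw [← finrank_eq_fixingSubgroup_index]
  have hfr : 0 < finrank ℚ N := finrank_pos
  have hNN1 : NN.index ∣ finrank ℚ N := by
    haveI := norm_fix N
    rw [← hidx]
    exact Subgroup.relIndex_dvd_index_of_normal _ _
  haveI : NN.Normal := by
    haveI := norm_fix N
    rw [hNN]
    infer_instance
  have hNH1 : NH.index ∣ finrank ℚ N :=
    (Subgroup.relIndex_dvd_index_of_normal NN (GalOf K (K ⊔ R))).trans hNN1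
  haveI : NN.FiniteIndex := ⟨fun h => hfr.ne' (Nat.eq_zero_of_zero_dvd (h ▸ hNN1))⟩
  haveI : NH.FiniteIndex := ⟨fun h => hfr.ne' (Nat.eq_zero_of_zero_dvd (h ▸ hNH1))⟩
  have hNNc : Nat.card (K.fixingSubgroup ⧸ NN) ≤ finrank ℚ N := Nat.le_of_dvd hfr hNN1
  have hNHc : Nat.card (GalOf K (K ⊔ R) ⧸ NH) ≤ finrank ℚ N := Nat.le_of_dvd hfr hNH1
  obtain ⟨hHf, hHc⟩ := hC₀
  haveI : Finite (Hom p M) := hHf.to_subtype
  let Φ : CocOn ρ U' (K ⊔ R) → ((K.fixingSubgroup ⧸ NN) → Hom p M) ×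
      ((GalOf K (K ⊔ R) ⧸ NH) → W) × (T → W) := fun c =>
    (fun i => ⟨_, chi_mem hU' hMK hMR hMf c.2 (Quotient.out i)⟩, fun j => c.1 (Quotient.out j),
      fun B => (c.2.2.2.2 B).choose)
  have hmain := atMost_of_fibres Φ C₁ hC₁ (fun c₀ => ⟨fun c => c₀.1 - c, sub_right_injective,
    fun c hc => by
      have k1 := congrArg Prod.fst hc
      have k2 := congrArg (fun z => z.2.1) hc
      have k3 := congrArg (fun z => z.2.2) hc
      refine diff_mem hN hstep hfU hfU' hT c₀.2 c.2 (fun i g hg => ?_) (fun j => ?_)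
        (fun B hB g hg => ?_)
      · have k4 := congrArg Subtype.val (congrFun k1 i)
        have hgM : ((g : K.fixingSubgroup) : Gal(Qb/ℚ)) ∈ M.fixingSubgroup := by
          rw [hMmem]
          refine ⟨⟨(g : K.fixingSubgroup).2, fun x _ => ?_⟩, (mem_galOf _).1 g.2⟩
          rw [hN _ hg]
        exact (congrFun k4 ⟨_, hgM⟩).symm
      · exact (congrFun k2 j).symm
      · have k5 := congrFun k3 ⟨B, hB⟩
        have k6 := (c.2.2.2.2 B).choose_spec.2 g hg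
        have k7 := (c₀.2.2.2.2 B).choose_spec.2 g hg
        have k8 : (c.2.2.2.2 B).choose = (c₀.2.2.2.2 B).choose := k5
        rw [k6, k7, k8]⟩)
  have hW1 : 0 < Nat.card W := Nat.card_pos
  have hH1 : 1 ≤ C₀ := by
    have h0 : (fun _ => 0 : M.fixingSubgroup → ZMod p) ∈ Hom p M :=
      ⟨fun _ _ => (add_zero 0).symm, ⟨⊤, isOpen_univ, fun _ _ => rfl⟩, fun _ _ _ => rfl⟩
    have h1 : 0 < (Hom p M).ncard := (Set.ncard_pos hHf).2 ⟨_, h0⟩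
    omega
  refine ⟨hmain.1, hmain.2.trans (Nat.mul_le_mul_right _ ?_)⟩
  rw [Nat.card_prod, Nat.card_prod, Nat.card_fun, Nat.card_fun, Nat.card_fun,
    Nat.card_coe_set_eq, mul_pow, mul_assoc]
  refine Nat.mul_le_mul ?_ (Nat.mul_le_mul ?_ ?_)
  · exact (Nat.pow_le_pow_left hHc _).trans (Nat.pow_le_pow_right hH1 hNNc)
  · exact Nat.pow_le_pow_right hW1 hNHc
  · have h1 : Nat.card T = T.card := by simp
    rw [h1]

end Pool.Agent.W2helper81.IW
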